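import Pool.Agent.L7h71.UN.Stm
import Pool.Agent.H565R2.FO2.USec

set_option autoImplicit false

/-!
# Project UN, part FIN: the dichotomy for Borel classes of cellular structures
-/

namespace Pool.Agent.L7h66.UN

open Set Filter Function Topology MeasureTheory Pool.Agent.L7h71.UN

theorem exists_perm_lt {r : ℕ} (f : Fin r → ℕ) : ∃ σ : Equiv.Perm ℕ, ∀ k, σ (f k) < r := by
  classical
  set S : Finset ℕ := Finset.univ.image f with hS
  have hc : S.card ≤ r := by
    have := Finset.card_image_le (s := (Finset.univ : Finset (Fin r))) (f := f)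
    simpa using this
  have h := Equiv.Perm.isMultiplyPretransitive ℕ S.card
  let x : Fin S.card ↪ ℕ := (S.orderEmbOfFin rfl).toEmbedding
  let y : Fin S.card ↪ ℕ := Fin.valEmbedding
  obtain ⟨g, hg⟩ := h.exists_smul_eq x y
  refine ⟨g, fun k => ?_⟩
  have hk : f k ∈ S := Finset.mem_image_of_mem f (Finset.mem_univ k)
  have hr : f k ∈ Set.range (S.orderEmbOfFin rfl) := by
    rw [Finset.range_orderEmbOfFin]
    exact hk
  obtain ⟨i, hi⟩ := hr
  have h1 : g (x i) = y i := by
    rw [← hg]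
    rfl
  have h2 : g (f k) = (i : ℕ) := by
    rw [← hi]
    exact h1
  rw [h2]
  exact lt_of_lt_of_le i.2 hc

section

variable {r d m : ℕ} {sz : Fin m → ℕ}

/-- The finite part of the standard domain which determines a cellular structure. -/
abbrev D0 (r d m : ℕ) (sz : Fin m → ℕ) : Type := Fin d ⊕ (Σ i : Fin m, Fin r × Fin (sz i))

/-- The inclusion. -/
def inc : D0 r d m sz → Dom d m sz := Sum.map id fun w => ⟨w.1, ((w.2.1 : ℕ), w.2.2)⟩

theorem exists_act (x : Fin r → Dom d m sz) :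
    ∃ (σ : Fin m → Equiv.Perm ℕ) (t : Fin r → D0 r d m sz), ∀ i, act σ (x i) = inc (t i) := by
  obtain ⟨σ, hσ⟩ := exists_perm_lt fun k => match x k with
    | Sum.inl _ => 0
    | Sum.inr w => w.2.1
  refine ⟨fun _ => σ, ?_⟩
  have h : ∀ k, ∃ u : D0 r d m sz, act (fun _ => σ) (x k) = inc u := by
    intro k
    have hk := hσ k
    rcases hx : x k with a | w
    · exact ⟨Sum.inl a, rfl⟩
    · rw [hx] at hk
      exact ⟨Sum.inr ⟨w.1, (⟨σ w.2.1, hk⟩, w.2.2)⟩, rfl⟩
  choose t ht using h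
  exact ⟨t, ht⟩

/-- The structures on `ℕ` which are invariant after the identification of `ℕ` with the standard
domain by `e₀`. -/
def InvS (r : ℕ) (K : Type) (e₀ : ℕ ≃ Dom d m sz) : Set (St r K ℕ) :=
  {M | ∀ (σ : Fin m → Equiv.Perm ℕ) (x : Fin r → ℕ),
    M (fun i => e₀.symm (act σ (e₀ (x i)))) = M x}

theorem inv_ext {K : Type} {e₀ : ℕ ≃ Dom d m sz} {M N : St r K ℕ} (hM : M ∈ InvS r K e₀)
    (hN : N ∈ InvS r K e₀)
    (h : ∀ t : Fin r → D0 r d m sz, M (fun i => e₀.symm (inc (t i))) =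
      N fun i => e₀.symm (inc (t i))) : M = N := by
  funext x
  obtain ⟨σ, t, ht⟩ := exists_act (r := r) fun i => e₀ (x i)
  rw [← hM σ x, ← hN σ x]
  simp only [ht]
  exact h t

theorem closed_invS {K : Type} [TopologicalSpace K] [T2Space K] (e₀ : ℕ ≃ Dom d m sz) :
    IsClosed (InvS r K e₀) := by
  have : InvS r K e₀ = ⋂ (σ : Fin m → Equiv.Perm ℕ), ⋂ (x : Fin r → ℕ),
      {M : St r K ℕ | M (fun i => e₀.symm (act σ (e₀ (x i)))) = M x} := by
    ext M
    simp [InvS]
  rw [this]
  exact isClosed_iInter fun σ => isClosed_iInter fun x =>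
    isClosed_eq (continuous_apply _) (continuous_apply _)

end

theorem iso_symm {r : ℕ} {K V W : Type} {M : St r K V} {N : St r K W} (h : Iso M N) :
    Iso N M := by
  obtain ⟨e, he⟩ := h
  refine ⟨e.symm, fun x => ?_⟩
  rw [← he]
  congr 1
  funext i
  simp

/-- One type of domains: countable or perfect. -/
theorem one_dom {r : ℕ} {K : Type} [TopologicalSpace K] [PolishSpace K] [MeasurableSpace K]
    [BorelSpace K] {B : Set (St r K ℕ)} (hB : MeasurableSet B) {d m : ℕ} {sz : Fin m → ℕ}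
    (e₀ : ℕ ≃ Dom d m sz) :
    (B ∩ InvS r K e₀).Countable ∨
    (∃ g : (ℕ → Bool) → St r K ℕ, Continuous g ∧ (∀ c, g c ∈ B) ∧
      ∀ c d, Iso (g c) (g d) → c = d) := by
  by_cases hc : (B ∩ InvS r K e₀).Countable
  · exact Or.inl hc
  right
  have hY : MeasurableSet (B ∩ InvS r K e₀) := hB.inter (closed_invS e₀).measurableSet
  have hYs : StandardBorelSpace (B ∩ InvS r K e₀ : Set (St r K ℕ)) := hY.standardBorel
  let J : (D0 r d m sz → ℕ) → (B ∩ InvS r K e₀ : Set (St r K ℕ)) →
      ((Fin r → D0 r d m sz) → K) := fun j M t => M.1 fun i => j (t i)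
  have hJ : ∀ j, Measurable (J j) := fun j => measurable_pi_lambda _ fun t =>
    (measurable_pi_apply _).comp measurable_subtype_coe
  have hunc : ¬ (⋃ j, Set.range (J j)).Countable := by
    intro hcount
    apply hc
    let j₀ : D0 r d m sz → ℕ := fun u => e₀.symm (inc u)
    have h1 : (Set.range (J j₀)).Countable := hcount.mono (Set.subset_iUnion (fun j => Set.range (J j)) j₀)
    have hinj : Injective (J j₀) := by
      intro M N hMN
      apply Subtype.ext
      exact inv_ext M.2.2 N.2.2 fun t => congrFun hMN t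
    have h2 : Countable (B ∩ InvS r K e₀ : Set (St r K ℕ)) := by
      rw [← Set.countable_univ_iff]
      refine Set.countable_of_injective_of_countable_image (f := J j₀) hinj.injOn ?_
      rw [Set.image_univ]
      exact h1
    exact Set.countable_coe_iff.1 h2
  obtain ⟨h, h1, h2⟩ := Pool.Agent.H565R2.FO2.perfect_of_uncountable
    (Y := (B ∩ InvS r K e₀ : Set (St r K ℕ))) (X := St r K ℕ)
    (Z := (Fin r → D0 r d m sz) → K) (ι := D0 r d m sz → ℕ)
    Subtype.val measurable_subtype_coe J hJ (fun M N => Iso M.1 N.1)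
    (fun M N hMN j => by
      obtain ⟨e, he⟩ := hMN
      refine ⟨fun u => e (j u), ?_⟩
      funext t
      exact (he fun i => j (t i)).symm) hunc
  refine ⟨fun c => (h c).1, h1, fun c => (h c).2.1, fun c d hcd => ?_⟩
  by_contra hne
  exact h2 c d hne hcd

theorem s_FIN : S_FIN := by
  classical
  intro r K _ _ _ _ B hB hiso hcell
  by_cases hp : ∃ g : (ℕ → Bool) → St r K ℕ, Continuous g ∧ (∀ c, g c ∈ B) ∧
      ∀ c d, Iso (g c) (g d) → c = d
  · exact Or.inr hp
  left
  let C : (Σ (d m : ℕ), (Fin m → ℕ)) → Set (St r K ℕ) := fun p =>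
    if h : Nonempty (ℕ ≃ Dom p.1 p.2.1 p.2.2) then B ∩ InvS r K h.some else ∅
  have hC : ∀ p, (C p).Countable := by
    intro p
    by_cases h : Nonempty (ℕ ≃ Dom p.1 p.2.1 p.2.2)
    · simp only [C, dif_pos h]
      exact (one_dom hB h.some).resolve_right hp
    · simp only [C, dif_neg h]
      exact Set.countable_empty
  refine ⟨⋃ p, C p, Set.countable_iUnion hC, fun M hM => ?_⟩
  obtain ⟨d, m, sz, e, he⟩ := hcell M hM
  have hne : Nonempty (ℕ ≃ Dom d m sz) := ⟨e⟩
  let e₀ : ℕ ≃ Dom d m sz := hne.some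
  let N : St r K ℕ := fun x => M fun i => e.symm (e₀ (x i))
  have hNM : Iso N M := ⟨e₀.trans e.symm, fun x => rfl⟩
  refine ⟨N, Set.mem_iUnion.2 ⟨⟨d, m, sz⟩, ?_⟩, hNM⟩
  have hCp : C ⟨d, m, sz⟩ = B ∩ InvS r K e₀ := by
    simp only [C]
    exact dif_pos hne
  rw [hCp]
  refine ⟨hiso M hM N (iso_symm hNM), fun σ x => ?_⟩
  have h1 := he σ fun i => e.symm (e₀ (x i))
  simp only [Equiv.apply_symm_apply] at h1
  change M _ = M _
  simp only [Equiv.apply_symm_apply]
  exact h1

end Pool.Agent.L7h66.UN
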