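import Pool.Agent.L7h71.UN.Stm
import Pool.Agent.H566W.Ana

set_option autoImplicit false

/-!
# Project UN, part PERF0: the perfect-set engine
-/

namespace Pool.Agent.L7h66.UN

open Set Filter Function Topology MeasureTheory Pool.Agent.L7h71.UN

section

variable {r : ℕ} {K : Type}

theorem lc_apply (g : (ℕ → Bool) → St r K ℕ) (hg : ∀ x, IsLocallyConstant fun c => g c x)
    (x : Fin r → ℕ) :
    IsLocallyConstant fun p : ((ℕ → Bool) × (ℕ → Bool)) × ((ℕ → ℕ) × (ℕ → ℕ)) =>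
      g p.1.2 (p.2.1 ∘ x) := by
  rw [IsLocallyConstant.iff_eventually_eq]
  intro p0
  have h1 : ∀ᶠ p : ((ℕ → Bool) × (ℕ → Bool)) × ((ℕ → ℕ) × (ℕ → ℕ)) in 𝓝 p0,
      ∀ i, p.2.1 (x i) = p0.2.1 (x i) := by
    rw [eventually_all]
    intro i
    have hc : Continuous fun p : ((ℕ → Bool) × (ℕ → Bool)) × ((ℕ → ℕ) × (ℕ → ℕ)) =>
        p.2.1 (x i) := (continuous_apply (x i)).comp (continuous_fst.comp continuous_snd)
    exact hc.continuousAt.eventually (isOpen_discrete {p0.2.1 (x i)} |>.mem_nhds rfl)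
  have h2 : ∀ᶠ p : ((ℕ → Bool) × (ℕ → Bool)) × ((ℕ → ℕ) × (ℕ → ℕ)) in 𝓝 p0,
      g p.1.2 (p0.2.1 ∘ x) = g p0.1.2 (p0.2.1 ∘ x) := by
    have h3 := (IsLocallyConstant.iff_eventually_eq _).1 (hg (p0.2.1 ∘ x)) p0.1.2
    have hc : Continuous fun p : ((ℕ → Bool) × (ℕ → Bool)) × ((ℕ → ℕ) × (ℕ → ℕ)) => p.1.2 :=
      continuous_snd.comp continuous_fst
    exact hc.continuousAt.eventually h3
  filter_upwards [h1, h2] with p hp1 hp2
  have : p.2.1 ∘ x = p0.2.1 ∘ x := funext hp1
  rw [this, hp2]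

theorem lc_left (g : (ℕ → Bool) → St r K ℕ) (hg : ∀ x, IsLocallyConstant fun c => g c x)
    (x : Fin r → ℕ) :
    IsLocallyConstant fun p : ((ℕ → Bool) × (ℕ → Bool)) × ((ℕ → ℕ) × (ℕ → ℕ)) =>
      g p.1.1 x :=
  (hg x).comp_continuous (continuous_fst.comp continuous_fst)

theorem isClosed_eq_of_lc {X : Type} [TopologicalSpace X] {f g : X → K}
    (hf : IsLocallyConstant f) (hg : IsLocallyConstant g) : IsClosed {x | f x = g x} := by
  let _ : TopologicalSpace K := ⊥
  have : DiscreteTopology K := ⟨rfl⟩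
  exact isClosed_eq hf.continuous hg.continuous

theorem analytic_iso (g : (ℕ → Bool) → St r K ℕ) (hg : ∀ x, IsLocallyConstant fun c => g c x) :
    AnalyticSet {p : (ℕ → Bool) × (ℕ → Bool) | Iso (g p.1) (g p.2)} := by
  let C : Set (((ℕ → Bool) × (ℕ → Bool)) × ((ℕ → ℕ) × (ℕ → ℕ))) :=
    {p | (∀ n, p.2.1 (p.2.2 n) = n) ∧ (∀ n, p.2.2 (p.2.1 n) = n) ∧
      ∀ x : Fin r → ℕ, g p.1.2 (p.2.1 ∘ x) = g p.1.1 x}
  have hev : Continuous fun q : (ℕ → ℕ) × ℕ => q.1 q.2 := by
    rw [continuous_iff_continuousAt]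
    rintro ⟨e, n⟩
    have h1 : ∀ᶠ q : (ℕ → ℕ) × ℕ in 𝓝 (e, n), q.2 = n :=
      (continuous_snd (X := ℕ → ℕ) (Y := ℕ)).continuousAt.eventually
        ((isOpen_discrete ({n} : Set ℕ)).mem_nhds (mem_singleton n))
    have h2 : ContinuousAt (fun q : (ℕ → ℕ) × ℕ => q.1 n) (e, n) :=
      ((continuous_apply n).comp continuous_fst).continuousAt
    refine h2.congr ?_
    filter_upwards [h1] with q hq
    rw [hq]
  have hC : IsClosed C := by
    have h1 : IsClosed {p : ((ℕ → Bool) × (ℕ → Bool)) × ((ℕ → ℕ) × (ℕ → ℕ)) |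
        ∀ n, p.2.1 (p.2.2 n) = n} := by
      simp only [ofPred_forall]
      refine isClosed_iInter fun n => isClosed_eq ?_ continuous_const
      exact hev.comp ((continuous_fst.comp continuous_snd).prodMk
        ((continuous_apply n).comp (continuous_snd.comp continuous_snd)))
    have h2 : IsClosed {p : ((ℕ → Bool) × (ℕ → Bool)) × ((ℕ → ℕ) × (ℕ → ℕ)) |
        ∀ n, p.2.2 (p.2.1 n) = n} := by
      simp only [ofPred_forall]
      refine isClosed_iInter fun n => isClosed_eq ?_ continuous_const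
      exact hev.comp ((continuous_snd.comp continuous_snd).prodMk
        ((continuous_apply n).comp (continuous_fst.comp continuous_snd)))
    have h3 : IsClosed {p : ((ℕ → Bool) × (ℕ → Bool)) × ((ℕ → ℕ) × (ℕ → ℕ)) |
        ∀ x : Fin r → ℕ, g p.1.2 (p.2.1 ∘ x) = g p.1.1 x} := by
      simp only [ofPred_forall]
      exact isClosed_iInter fun x => isClosed_eq_of_lc (lc_apply g hg x) (lc_left g hg x)
    exact h1.inter (h2.inter h3)
  have hP : PolishSpace (((ℕ → Bool) × (ℕ → Bool)) × (ℕ → ℕ) × (ℕ → ℕ)) := {}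
  have h4 : AnalyticSet (Prod.fst '' C) := hC.analyticSet.image_of_continuous continuous_fst
  have h5 : {p : (ℕ → Bool) × (ℕ → Bool) | Iso (g p.1) (g p.2)} = Prod.fst '' C := by
    ext ⟨c, d⟩
    constructor
    · rintro ⟨e, he⟩
      exact ⟨((c, d), (e, e.symm)), ⟨fun n => e.apply_symm_apply n,
        fun n => e.symm_apply_apply n, he⟩, rfl⟩
    · rintro ⟨⟨⟨c', d'⟩, ⟨e, e'⟩⟩, ⟨h1, h2, h3⟩, h⟩
      simp only [Prod.mk.injEq] at h
      obtain ⟨rfl, rfl⟩ := h
      exact ⟨⟨e, e', h2, h1⟩, h3⟩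
  rw [h5]
  exact h4

end

theorem s_PERF0 : S_PERF0 := by
  intro r k K g s hg hs hinj
  obtain ⟨h, hh, hh2⟩ := Pool.Agent.H566W.perfect_independent
    (fun c d => Iso (g c) (g d)) (analytic_iso g hg) (fun c => by
      classical
      let e : (ℕ → Bool) → Equiv.Perm ℕ := fun d =>
        if h : Iso (g c) (g d) then h.choose else 1
      have he : ∀ d, Iso (g c) (g d) → ∀ x : Fin r → ℕ, g d (e d ∘ x) = g c x := by
        intro d hd x
        simp only [e, dif_pos hd]
        exact hd.choose_spec x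
      refine Set.countable_of_injective_of_countable_image (f := fun d (i : Fin k) =>
        (e d).symm (s d i)) ?_ (Set.to_countable _)
      intro d hd d' hd' hdd
      refine hinj d d' ((e d).symm.trans (e d')) (fun i => ?_) (fun x => ?_)
      · have := congrFun hdd i
        simp only at this
        rw [Equiv.trans_apply, this, Equiv.apply_symm_apply]
      · have h1 : (⇑((e d).symm.trans (e d')) ∘ x) = e d' ∘ ((e d).symm ∘ x) := rfl
        rw [h1, he d' hd', ← he d hd ((e d).symm ∘ x)]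
        congr 1
        funext i
        simp)
  refine ⟨h, hh, fun c d hcd => ?_⟩
  by_contra hne
  exact hh2 c d hne hcd

end Pool.Agent.L7h66.UN
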